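import Pool.Agent.Q141.Nbr.Final
import Pool.Agent.Q141.Nbr.Dim

set_option autoImplicit false

/-!
# Numbers of missing faces of neighborly `2k`-spheres

Question Q1 of the problem is answered in the negative, for every `k ≥ 1` and every number `n` of
vertices for which the range of the question has at least two values: the value
`C(n - k - 3, k) - 1` of the number `m_{k+1}` of missing `(k+1)`-faces is not attained by any
neighborly `2k`-sphere with `n` vertices.
-/

namespace Pool.Agent.Results.MP_233bd3_co.MaximumMinusOne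

/-- A finite abstract simplicial complex on the set `V`; the empty set is a face. A face with
`i + 1` elements is an `i`-face. -/
structure Complex (V : Type) where
  /-- the faces -/
  faces : Finset (Finset V)
  /-- the empty set is a face -/
  empty_mem : ∅ ∈ faces
  /-- subsets of faces are faces -/
  down : ∀ σ ∈ faces, ∀ τ, τ ⊆ σ → τ ∈ faces

/-- The geometric realisation, in barycentric coordinates: the nonnegative functions on `V` with
sum `1` whose support is contained in a face. -/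
def realisation {V : Type} [Fintype V] (Δ : Complex V) : Set (V → ℝ) :=
  {x | (∀ v, 0 ≤ x v) ∧ ∑ v, x v = 1 ∧ ∃ σ ∈ Δ.faces, ∀ v, v ∉ σ → x v = 0}

/-- A simplicial `j`-sphere: the realisation is homeomorphic to the unit sphere of `ℝ^(j+1)`. -/
def IsSimplicialSphere {V : Type} [Fintype V] (j : ℕ) (Δ : Complex V) : Prop :=
  Nonempty (realisation Δ ≃ₜ Metric.sphere (0 : EuclideanSpace ℝ (Fin (j + 1))) 1)

/-- Every element of `V` is a vertex of `Δ`. -/
def AllVertices {V : Type} (Δ : Complex V) : Prop := ∀ v : V, {v} ∈ Δ.faces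

/-- Every set of `k` elements of `V` is a face. -/
def IsNeighborly {V : Type} (k : ℕ) (Δ : Complex V) : Prop :=
  ∀ σ : Finset V, σ.card = k → σ ∈ Δ.faces

/-- `Δ` is a neighborly `2k`-sphere with vertex set `V`. -/
def IsNeighborlySphere {V : Type} [Fintype V] (k : ℕ) (Δ : Complex V) : Prop :=
  IsSimplicialSphere (2 * k) Δ ∧ AllVertices Δ ∧ IsNeighborly k Δ

/-- The missing `i`-faces: the sets with `i + 1` vertices which are not faces, while all their
proper subsets are faces. -/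
def missingFaces {V : Type} (i : ℕ) (Δ : Complex V) : Set (Finset V) :=
  {F | F.card = i + 1 ∧ F ∉ Δ.faces ∧ ∀ G, G ⊂ F → G ∈ Δ.faces}

/-- The number `m_i` of missing `i`-faces. -/
noncomputable def numMissing {V : Type} (i : ℕ) (Δ : Complex V) : ℕ :=
  (missingFaces i Δ).ncard

open Pool.Agent.H252R2 Pool.Agent.Helper611.ZBase

/-- the complex in the library -/
def toCx {V : Type} (Δ : Complex V) : Cx V := ⟨Δ.faces, Δ.empty_mem, Δ.down⟩

theorem not_attained (k : ℕ) (hk : 1 ≤ k) (V : Type) [Fintype V] (Δ : Complex V)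
    (hΔ : IsNeighborlySphere k Δ) :
    numMissing (k + 1) Δ + 1 ≠ (Fintype.card V - k - 3).choose k := by
  classical
  by_cases hcard : 2 * k + 2 ≤ Fintype.card V
  swap
  · have h1 : (Fintype.card V - k - 3).choose k = 0 := Nat.choose_eq_zero_of_lt (by omega)
    rw [h1]
    exact Nat.succ_ne_zero _
  let _ : LinearOrder V := LinearOrder.lift' (Fintype.equivFin V) (Equiv.injective _)
  obtain ⟨hhomeo, -, hn⟩ := hΔ
  obtain ⟨hsmall, hfacet⟩ := Q141.Nbr.Dim.sphere_dim (toCx Δ) hhomeo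
  have hyp : Top2.Hyp (toCx Δ) (2 * k + 1) :=
    ⟨hsmall, hfacet, fun τ hne hτ j =>
      Top1.del_acyclic (toCx Δ) (2 * k + 1) hhomeo τ hτ hne j⟩
  have h1 := Q141.Nbr.Final.neighborly (toCx Δ) k hk hyp hn hcard
  have h2 : numMissing (k + 1) Δ = (Q141.Nbr.Miss.mf (toCx Δ) (k + 2)).card := by
    unfold numMissing
    rw [← Set.ncard_coe_finset]
    congr 1
    ext σ
    rw [Finset.mem_coe, Q141.Nbr.Miss.mem_mf]
    rfl
  rw [h2]
  exact h1

/-- For all `k ≥ 1` no neighborly `2k`-sphere with `n` vertices satisfies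
`m_{k+1} = C(n - k - 3, k) - 1`. Hence for all `k ≥ 2` and all `n ≥ 2k + 3` some integer `m` with
`0 ≤ m ≤ C(n - k - 3, k)` is not of the form `m_{k+1}`, and the statement of Q1 is false. -/
theorem result :
    (∀ k : ℕ, 1 ≤ k → ∀ (V : Type) [Fintype V] (Δ : Complex V), IsNeighborlySphere k Δ →
      numMissing (k + 1) Δ + 1 ≠ (Fintype.card V - k - 3).choose k) ∧
    (∀ k : ℕ, 2 ≤ k → ∀ n : ℕ, 2 * k + 3 ≤ n → ∃ m : ℕ, m ≤ (n - k - 3).choose k ∧
      ¬ ∃ Δ : Complex (Fin n), IsNeighborlySphere k Δ ∧ numMissing (k + 1) Δ = m) ∧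
    ¬ ∀ k : ℕ, 2 ≤ k → ∃ N : ℕ, ∀ n : ℕ, N ≤ n → ∀ m : ℕ, m ≤ (n - k - 3).choose k →
      ∃ Δ : Complex (Fin n), IsNeighborlySphere k Δ ∧ numMissing (k + 1) Δ = m := by
  have h2 : ∀ k : ℕ, 2 ≤ k → ∀ n : ℕ, 2 * k + 3 ≤ n → ∃ m : ℕ, m ≤ (n - k - 3).choose k ∧
      ¬ ∃ Δ : Complex (Fin n), IsNeighborlySphere k Δ ∧ numMissing (k + 1) Δ = m := by
    intro k hk n hn
    have hpos : 0 < (n - k - 3).choose k := Nat.choose_pos (by omega)
    refine ⟨(n - k - 3).choose k - 1, Nat.sub_le _ _, ?_⟩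
    rintro ⟨Δ, hΔ, hm⟩
    have h1 := not_attained k (by omega) (Fin n) Δ hΔ
    rw [Fintype.card_fin, hm] at h1
    omega
  refine ⟨fun k hk V _ Δ hΔ => not_attained k hk V Δ hΔ, h2, fun h => ?_⟩
  obtain ⟨N, hN⟩ := h 2 le_rfl
  obtain ⟨m, hm, hno⟩ := h2 2 le_rfl (max N 7) (le_max_right _ _)
  exact hno (hN (max N 7) (le_max_left _ _) m hm)

end Pool.Agent.Results.MP_233bd3_co.MaximumMinusOne
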